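import Pool.Agent.H121.GA.IfA
import Pool.Agent.H757.Y987.Cov
import Pool.Agent.H168.Y987.Op
import Pool.Agent.H410.Y987.Troot

/-! Project GA, task GA-COV: the tree is a local cover of the network, potentials clipped to `[-b, b]`
(port of `Pool.Agent.H757.Y987.cov`). -/

set_option autoImplicit false
set_option linter.unusedSectionVars false
set_option linter.unusedSimpArgs false

open scoped BigOperators InnerProductSpace Topology
open Filter MeasureTheory

namespace Pool.Agent.H721.GA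

open Pool.Agent.H987.Y
open Pool.Agent.Y662.TR (LL Cf Mw dv hu clp dv_apply)
open Pool.Agent.TH369.AN (Rz)
open Pool.Agent.H987.Z (Rs Gr Fr gZ HV)
open Pool.Agent.H757.Y987 (gL_mono gV_mono gV_root Fb mem_Fb gV_sheet ch gV_child gV_parent tf PT
  tf_one tf_zero sum_t sum_ks ker_ks bnd_eq sum_child sum_parent pow_eq)
open Pool.Agent.H121.GA (dgb kNb S_covb)

variable {d n N R : ℕ}

/-! ### formal operators -/

section formal

variable (t : Lt d → Lt d → ℝ) (a b : ℝ) (R)

/-- the formal operator on the lattice -/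
noncomputable def hG (σ : Fin (n + 1) → Lt d → Lt d) (V' : Lt d → ℝ) (f : Lt d → ℂ) (x : Lt d) :
    ℂ :=
  (∑ e ∈ Fb d R, ((t x (x + e) : ℝ) : ℂ) * f (x + e)) + (a : ℂ) * (∑ j, f (σ j x)) +
    ((clp b (V' x) : ℝ) : ℂ) * f x

/-- the formal operator on the tree -/
noncomputable def hT (W : List (Ix (Lt d) n) → Om d N) (f : Vt (Lt d) n → ℂ) (v : Vt (Lt d) n) :
    ℂ :=
  (∑ e ∈ Fb d R, ((t (v.2 + ph (W v.1).1) (v.2 + e + ph (W v.1).1) : ℝ) : ℂ) * f (v.1, v.2 + e)) +
    (a : ℂ) * ((∑ j, ((tf v j : ℝ) : ℂ) * f (ch j v)) + PT f v) +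
    ((clp b ((W v.1).2 v.2) : ℝ) : ℂ) * f v

variable {t a b R}

theorem hT_local (W : List (Ix (Lt d) n) → Om d N) {f f' : Vt (Lt d) n → ℂ} {m : ℕ}
    (h : ∀ w, gV R (m + 1) w → f w = f' w) {v : Vt (Lt d) n} (hv : gV R m v) :
    hT R t a b W f v = hT R t a b W f' v := by
  have h1 : ∀ e ∈ Fb d R, ((t (v.2 + ph (W v.1).1) (v.2 + e + ph (W v.1).1) : ℝ) : ℂ) *
      f (v.1, v.2 + e) = ((t (v.2 + ph (W v.1).1) (v.2 + e + ph (W v.1).1) : ℝ) : ℂ) *
      f' (v.1, v.2 + e) := by
    intro e he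
    rw [h _ (gV_sheet hv he)]
  have h2 : ∀ j, ((tf v j : ℝ) : ℂ) * f (ch j v) = ((tf v j : ℝ) : ℂ) * f' (ch j v) := by
    intro j
    by_cases hb : al true (0 : Lt d) v j
    · rw [h _ (gV_child hv hb)]
    · have : tf v j = 0 := if_neg hb
      simp [this]
  have h3 : PT f v = PT f' v := by
    obtain ⟨l, x⟩ := v
    cases l with
    | nil => rfl
    | cons p l =>
      obtain ⟨u, j⟩ := p
      simp only [PT]
      rw [h _ (gV_mono (Nat.le_succ m) (gV_parent hv))]
  unfold hT
  rw [Finset.sum_congr rfl h1, Finset.sum_congr rfl fun j _ => h2 j, h3,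
    h v (gV_mono (Nat.le_succ m) hv)]

theorem hT_iter (W : List (Ix (Lt d) n) → Om d N) (k : ℕ) :
    ∀ {f f' : Vt (Lt d) n → ℂ} {m : ℕ}, (∀ w, gV R (m + k) w → f w = f' w) →
    ∀ {v : Vt (Lt d) n}, gV R m v → ((hT R t a b W)^[k] f) v = ((hT R t a b W)^[k] f') v := by
  induction k with
  | zero =>
    intro f f' m h v hv
    exact h v hv
  | succ k ih =>
    intro f f' m h v hv
    rw [Function.iterate_succ_apply', Function.iterate_succ_apply']
    refine hT_local W (m := m) (fun w hw => ?_) hv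
    exact ih (m := m + 1) (fun w' hw' => h w' (by rwa [Nat.add_right_comm] at hw')) hw

/-- the intertwining relation at a good vertex -/
theorem inter {h : ℝ} (ht : Net N R h t) {σ : Fin (n + 1) → Lt d → Lt d}
    (hs : ∀ j x, σ j (σ j x) = x) {m : ℕ} (X : Lt d) (W : List (Ix (Lt d) n) → Om d N)
    (V' : Lt d → ℝ) (f : Lt d → ℂ) {v : Vt (Lt d) n} (hv : gV R m v)
    (hb : ∃ w : Lt d, bs σ X v.1 = ph (W v.1).1 + (N : ℤ) • w)
    (hW : (W v.1).2 v.2 = V' (pos σ X v)) :
    hT R t a b W (fun w => f (pos σ X w)) v = hG R t a b σ V' f (pos σ X v) := by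
  unfold hT hG
  rw [hW]
  obtain ⟨w, hw⟩ := hb
  have e0 : ∀ e : Lt d, t (v.2 + ph (W v.1).1) (v.2 + e + ph (W v.1).1) =
      t (pos σ X v) (pos σ X v + e) := by
    intro e
    rw [← ht.per (v.2 + ph (W v.1).1) (v.2 + e + ph (W v.1).1) w]
    unfold pos
    rw [hw]
    congr 1
    · abel
    · abel
  have e1 : ∀ e : Lt d, pos σ X (v.1, v.2 + e) = pos σ X v + e := fun e => by
    unfold pos; simp only [add_assoc]
  simp only [e0, e1]
  congr 2
  congr 1
  have e2 : ∀ j, pos σ X (ch j v) = σ (lab (col v.1) v.2 j) (pos σ X v) := by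
    intro j
    obtain ⟨l, x⟩ := v
    unfold pos ch
    simp only [bs, add_zero]
  simp only [e2]
  obtain ⟨l, x⟩ := v
  simp only
  by_cases hx : x = 0
  · subst hx
    cases l with
    | nil =>
      have h1 : ∀ j, tf (([], 0) : Vt (Lt d) n) j = 1 := fun j =>
        tf_one fun h => h.1 rfl rfl
      simp only [h1, PT, add_zero, lab, col, Equiv.swap_self, Equiv.refl_apply, if_true,
        Complex.ofReal_one, one_mul]
    | cons p l =>
      obtain ⟨u, j0⟩ := p
      set c := col (((u, j0) :: l) : List (Ix (Lt d) n)) with hc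
      have hc' : c = lab (col l) u j0 := rfl
      set Y := pos σ X (((u, j0) :: l, 0) : Vt (Lt d) n) with hY
      have hlab : ∀ j, lab c (0 : Lt d) j = Equiv.swap 0 c j := fun j => by
        unfold lab; rw [if_pos rfl]
      simp only [hlab]
      have ht : ∀ j, ((tf (((u, j0) :: l, 0) : Vt (Lt d) n) j : ℝ) : ℂ) *
          f (σ (Equiv.swap 0 c j) Y) = if j = 0 then 0 else f (σ (Equiv.swap 0 c j) Y) := by
        intro j
        by_cases hj : j = 0
        · rw [if_pos hj, tf_zero (by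
            intro h
            exact h ⟨fun _ => by simp, rfl, hj⟩)]
          simp
        · rw [if_neg hj, tf_one (by
            intro h
            exact hj h.2.2)]
          simp
      simp only [ht]
      have hpar : PT (fun w => f (pos σ X w)) (((u, j0) :: l, 0) : Vt (Lt d) n) =
          f (σ (Equiv.swap 0 c 0) Y) := by
        simp only [PT, if_true]
        have h1 : tf ((l, u) : Vt (Lt d) n) j0 = 1 := by
          refine tf_one ?_
          rintro ⟨h2, h3, h4⟩
          exact (hv.1.1.1 (h2 rfl) h3) h4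
        rw [h1, Complex.ofReal_one, one_mul]
        congr 1
        rw [Equiv.swap_apply_left, hc', hY]
        unfold pos
        simp only [bs, add_zero]
        rw [hs]
      rw [hpar]
      have hsum : (∑ j, if j = 0 then (0 : ℂ) else f (σ (Equiv.swap 0 c j) Y)) +
          f (σ (Equiv.swap 0 c 0) Y) = ∑ j, f (σ (Equiv.swap 0 c j) Y) := by
        rw [Fin.sum_univ_succ, Fin.sum_univ_succ]
        simp only [if_true, Fin.succ_ne_zero, if_false]
        ring
      rw [hsum]
      exact Equiv.sum_comp (Equiv.swap 0 c) fun j => f (σ j Y)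
  · have ht : ∀ j, tf ((l, x) : Vt (Lt d) n) j = 1 := fun j =>
      tf_one fun h => hx h.2.1
    have hlab : ∀ j, lab (col l) x j = j := fun j => by unfold lab; rw [if_neg hx]
    have hpar : PT (fun w => f (pos σ X w)) ((l, x) : Vt (Lt d) n) = 0 := by
      cases l with
      | nil => rfl
      | cons p l => obtain ⟨u, j⟩ := p; simp only [PT]; rw [if_neg hx]
    simp only [ht, hpar, add_zero, hlab, Complex.ofReal_one, one_mul]

theorem inter_iter {h : ℝ} (ht : Net N R h t) {σ : Fin (n + 1) → Lt d → Lt d}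
    (hs : ∀ j x, σ j (σ j x) = x) {t0 : ℕ} (X : Lt d) (W : List (Ix (Lt d) n) → Om d N)
    (V' : Lt d → ℝ) (hb : ∀ l, gL R t0 l → ∃ w : Lt d, bs σ X l = ph (W l).1 + (N : ℤ) • w)
    (hW : ∀ v, gV R t0 v → (W v.1).2 v.2 = V' (pos σ X v)) (f : Lt d → ℂ) (k : ℕ) :
    ∀ {m : ℕ}, m + k ≤ t0 → ∀ {v : Vt (Lt d) n}, gV R m v →
    ((hT R t a b W)^[k] fun w => f (pos σ X w)) v = ((hG R t a b σ V')^[k] f) (pos σ X v) := by
  induction k with
  | zero =>
    intro m hm v hv
    rfl
  | succ k ih =>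
    intro m hm v hv
    rw [Function.iterate_succ_apply', Function.iterate_succ_apply']
    have hv0 : gV R t0 v := gV_mono (by omega) hv
    rw [← inter ht hs X W V' ((hG R t a b σ V')^[k] f) hv (hb v.1 hv0.1) (hW v hv0)]
    exact hT_local W (fun w hw => ih (m := m + 1) (by omega) hw) hv

end formal

variable {b : ℝ}

/-! ### the kernels -/

theorem sum_dg {x : Lt d} {V' : Lt d → ℝ} (u : Lt d → ℂ) :
    HasSum (fun y => ((dgb b V' x y : ℝ) : ℂ) * u y) (((clp b (V' x) : ℝ) : ℂ) * u x) := by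
  have h := hasSum_single (f := fun y => ((dgb b V' x y : ℝ) : ℂ) * u y) x (by
    intro y hy
    unfold dgb
    rw [if_neg (Ne.symm hy)]
    simp)
  have h2 : dgb b V' x x = clp b (V' x) := by unfold dgb; rw [if_pos rfl]
  simpa [h2] using h

theorem Ker_dgb {ι : Type} {h : ℝ} {k : ι → ι → ℝ} (hk : Ker h k) (hb : 0 ≤ b) (V : ι → ℝ) :
    Ker (h + b) (fun x y => k x y + dgb b V x y) := by
  classical
  have hds : ∀ x, HasSum (fun y => |dgb b V x y|) |clp b (V x)| := by
    intro x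
    have h1 := hasSum_single (f := fun y => |dgb b V x y|) x (by
      intro y hy
      unfold dgb
      rw [if_neg (fun e => hy e.symm), abs_zero])
    have h2 : |dgb b V x x| = |clp b (V x)| := by unfold dgb; rw [if_pos rfl]
    rw [h2] at h1
    exact h1
  have hle : ∀ x y, |k x y + dgb b V x y| ≤ |k x y| + |dgb b V x y| := fun x y => abs_add_le _ _
  have hsm : ∀ x, Summable fun y => |k x y| + |dgb b V x y| :=
    fun x => (hk.sm x).add (hds x).summable
  have hs : ∀ x, Summable fun y => |k x y + dgb b V x y| := fun x =>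
    Summable.of_nonneg_of_le (fun y => abs_nonneg _) (hle x) (hsm x)
  refine ⟨by linarith [hk.h0], ?_, hs, ?_⟩
  · intro x y
    rw [hk.sy x y]
    congr 1
    unfold dgb
    by_cases e : x = y
    · subst e; rfl
    · rw [if_neg e, if_neg (fun e' => e e'.symm)]
  · intro x
    calc ∑' y, |k x y + dgb b V x y| ≤ ∑' y, (|k x y| + |dgb b V x y|) :=
          (hs x).tsum_le_tsum (hle x) (hsm x)
      _ = (∑' y, |k x y|) + |clp b (V x)| := by
          rw [Summable.tsum_add (hk.sm x) (hds x).summable, (hds x).tsum_eq]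
      _ ≤ h + b := by
          have := Pool.Agent.Y662.TR.clp_abs b (V x)
          rw [abs_of_nonneg hb] at this
          linarith [hk.le x]

theorem hG_eq (h1 : S_op) (hb0 : 0 ≤ b) {h a : ℝ} {t : Lt d → Lt d → ℝ} (ht : Net N R h t)
    {σ : Fin (n + 1) → Lt d → Lt d} (hs : ∀ j x, σ j (σ j x) = x) (V' : Lt d → ℝ)
    (u : LL (Lt d)) (x : Lt d) :
    Op (fun x y => t x y + a * kσ σ x y + dgb b V' x y) u x = hG R t a b σ V' (fun w => u w) x := by
  have hK := Ker_dgb (ker_ks (a := a) hs ht.ker) hb0 V'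
  have h2 := ((h1 (Lt d) _ _ hK).1 u x).2
  rw [h2]
  unfold hG
  have h3 := ((sum_t ht x (fun w => u w)).add ((sum_ks σ x (fun w => u w)).mul_left (a : ℂ))).add
    (sum_dg (b := b) (V' := V') (x := x) (fun w => u w))
  rw [← h3.tsum_eq]
  refine tsum_congr fun y => ?_
  push_cast
  ring

theorem sum_sheet {h : ℝ} {t : Lt d → Lt d → ℝ} (ht : Net N R h t)
    (W : List (Ix (Lt d) n) → Om d N) (v : Vt (Lt d) n) (u : Vt (Lt d) n → ℂ) :
    HasSum (fun w : Vt (Lt d) n => (((if v.1 = w.1 then kNb b t (W v.1) v.2 w.2 else 0 : ℝ)) : ℂ) * u w)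
      ((∑ e ∈ Fb d R, ((t (v.2 + ph (W v.1).1) (v.2 + e + ph (W v.1).1) : ℝ) : ℂ) *
        u (v.1, v.2 + e)) + ((clp b ((W v.1).2 v.2) : ℝ) : ℂ) * u v) := by
  classical
  set p := ph (W v.1).1 with hp
  have h1 : HasSum (fun x' : Lt d => ((t (v.2 + p) (x' + p) : ℝ) : ℂ) * u (v.1, x'))
      (∑ e ∈ Fb d R, ((t (v.2 + p) (v.2 + e + p) : ℝ) : ℂ) * u (v.1, v.2 + e)) := by
    have h2 : HasSum (fun x' : Lt d => ((t (v.2 + p) (x' + p) : ℝ) : ℂ) * u (v.1, x'))
        (∑ x' ∈ (Fb d R).map (addLeftEmbedding v.2),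
          ((t (v.2 + p) (x' + p) : ℝ) : ℂ) * u (v.1, x')) :=
      hasSum_sum_of_ne_finset_zero (by
        intro y hy
        have : t (v.2 + p) (y + p) = 0 := by
          by_contra hne
          apply hy
          rw [Finset.mem_map]
          refine ⟨y - v.2, ?_, by simp⟩
          rw [mem_Fb]
          intro i
          have := ht.rng _ _ hne i
          rw [Pi.sub_apply, abs_sub_comm]
          simp only [Pi.add_apply] at this
          have e : v.2 i + p i - (y i + p i) = v.2 i - y i := by ring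
          rwa [e] at this
        simp [this])
    rw [Finset.sum_map] at h2
    exact h2
  have h2 : HasSum (fun x' : Lt d => ((dgb b (W v.1).2 v.2 x' : ℝ) : ℂ) * u (v.1, x'))
      (((clp b ((W v.1).2 v.2) : ℝ) : ℂ) * u v) := sum_dg (x := v.2) (fun x' => u (v.1, x'))
  have h3 := h1.add h2
  have hinj : Function.Injective fun x' : Lt d => ((v.1, x') : Vt (Lt d) n) := by
    intro x y hxy
    exact (Prod.ext_iff.1 hxy).2
  refine (hinj.hasSum_iff ?_).1 ?_
  · intro w hw
    rw [if_neg]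
    · simp
    · intro h
      exact hw ⟨w.2, Prod.ext h rfl⟩
  · refine h3.congr_fun ?_
    intro x'
    simp only [Function.comp_apply, if_true]
    unfold kNb
    push_cast
    ring

theorem ker_kN (hb0 : 0 ≤ b) {h : ℝ} {t : Lt d → Lt d → ℝ} (ht : Ker h t) (ω : Om d N) :
    Ker (h + b) (kNb b t ω) := by
  set p := ph ω.1 with hp
  have hK : Ker h (fun x y => t (x + p) (y + p)) := by
    refine ⟨ht.h0, fun x y => ht.sy _ _, fun x => ?_, fun x => ?_⟩
    · exact (Equiv.summable_iff (Equiv.addRight p)).2 (ht.sm (x + p))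
    · have h2 := (Equiv.addRight p).tsum_eq fun y => |t (x + p) y|
      exact h2.le.trans (ht.le (x + p))
  exact Ker_dgb hK hb0 ω.2

theorem hT_eq (h1 : S_op) (h2 : S_troot) (hb0 : 0 ≤ b) {h a : ℝ} {t : Lt d → Lt d → ℝ} (ht : Net N R h t)
    (W : List (Ix (Lt d) n) → Om d N) (u : LL (Vt (Lt d) n)) (v : Vt (Lt d) n) :
    Op (kB (kNb b t) true (0 : Lt d) a W) u v = hT R t a b W (fun w => u w) v := by
  classical
  have hK := (h2 (Lt d) (Om d N) n (kNb b t) (h + b) (ker_kN hb0 ht.ker) true (0 : Lt d) a W).1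
  have h3 := ((h1 (Vt (Lt d) n) _ _ hK).1 u v).2
  rw [h3]
  unfold hT
  have h4 := (sum_sheet (b := b) ht W v (fun w => u w)).add
    (((sum_child v (fun w => u w)).add (sum_parent v (fun w => u w))).mul_left (a : ℂ))
  have e : (∑ e ∈ Fb d R, ((t (v.2 + ph (W v.1).1) (v.2 + e + ph (W v.1).1) : ℝ) : ℂ) *
        u (v.1, v.2 + e)) + (a : ℂ) * ((∑ j, ((tf v j : ℝ) : ℂ) * u (ch j v)) +
          PT (fun w => u w) v) + ((clp b ((W v.1).2 v.2) : ℝ) : ℂ) * u v =
      ((∑ e ∈ Fb d R, ((t (v.2 + ph (W v.1).1) (v.2 + e + ph (W v.1).1) : ℝ) : ℂ) *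
        u (v.1, v.2 + e)) + ((clp b ((W v.1).2 v.2) : ℝ) : ℂ) * u v) +
      (a : ℂ) * ((∑ j, ((tf v j : ℝ) : ℂ) * u (ch j v)) + PT (fun w => u w) v) := by ring
  rw [e, ← h4.tsum_eq]
  refine tsum_congr fun w => ?_
  unfold kB
  push_cast
  ring_nf

/-- **GA-COV**, with the hypotheses of the original -/
theorem covb' (h1 : S_op) (h2 : S_troot) : S_covb := by
  intro d N R n t0 t h a b σ X W V' hb0 ht hs hinj hb hW m hm
  classical
  have e1 := congrFun (pow_eq (Op fun x y => t x y + a * kσ σ x y + dgb b V' x y)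
    (hG R t a b σ V') (hG_eq h1 hb0 ht hs V') m (dv X)) X
  have e2 := congrFun (pow_eq (Op (kB (kNb b t) true (0 : Lt d) a W)) (hT R t a b W)
    (hT_eq h1 h2 hb0 ht W) m (dv (([] : List (Ix (Lt d) n)), 0))) ([], 0)
  simp only at e1 e2
  rw [e1, e2]
  have h3 : pos σ X (([], 0) : Vt (Lt d) n) = X := by simp [pos, bs]
  have e3 := inter_iter (a := a) (b := b) ht hs X W V' hb hW (fun w => dv X w) m (m := 0)
    (by rw [Nat.zero_add]; exact hm) (gV_root (n := n) (R := R) (d := d) 0)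
  rw [h3] at e3
  rw [← e3]
  refine hT_iter W m (m := 0) (fun w hw => ?_) (gV_root 0)
  have hw' : gV R t0 w := gV_mono (by omega) hw
  rw [dv_apply, dv_apply]
  by_cases hwo : w = ([], 0)
  · rw [if_pos hwo, if_pos (by rw [hwo]; exact h3)]
  · rw [if_neg hwo, if_neg]
    intro h6
    exact hwo (hinj hw' (gV_root t0) (h6.trans h3.symm))

/-- **GA-COV** -/
theorem covb : S_covb := covb' Pool.Agent.H168.Y987.op
  (Pool.Agent.H410.Y987.troot Pool.Agent.H168.Y987.op)

end Pool.Agent.H721.GA
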