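import Pool.Agent.H487.GA.Stm2

set_option autoImplicit false

/-!
# Project GA (helper487), statement S_LAND: Landau's local lemma

The extraction of the zeros is copied from the library modules `H370R2.Local` and `H382P.LocExp`.
-/

open Complex Filter Topology Set MeasureTheory Metric

namespace Pool.Agent.H721.GA

/-- multiplicity (order of vanishing) of `F` at `s`, as a natural number -/
noncomputable def mult (F : ℂ → ℂ) (s : ℂ) : ℕ := analyticOrderNatAt F s

lemma order_ne_top {f : ℂ → ℂ} {K : Set ℂ} (hK : IsPreconnected K)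
    (hf : AnalyticOnNhd ℂ f K) {c z : ℂ} (hcK : c ∈ K) (hc : f c ≠ 0) (hz : z ∈ K) :
    analyticOrderAt f z ≠ ⊤ := by
  refine hf.analyticOrderAt_ne_top_of_isPreconnected hK hcK hz ?_
  rw [(hf c hcK).analyticOrderAt_eq_zero.mpr hc]
  exact ENat.zero_ne_top

lemma divisor_eq {f : ℂ → ℂ} {K : Set ℂ} (hK : IsPreconnected K)
    (hf : AnalyticOnNhd ℂ f K) {c z : ℂ} (hcK : c ∈ K) (hc : f c ≠ 0) (hz : z ∈ K) :
    MeromorphicOn.divisor f K z = (mult f z : ℤ) := by
  have h := order_ne_top hK hf hcK hc hz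
  rw [MeromorphicOn.AnalyticOnNhd.divisor_apply hf hz]
  unfold mult
  rw [← Nat.cast_analyticOrderNatAt h]
  simp

lemma mult_pos {f : ℂ → ℂ} {K : Set ℂ} (hK : IsPreconnected K)
    (hf : AnalyticOnNhd ℂ f K) {c z : ℂ} (hcK : c ∈ K) (hc : f c ≠ 0) (hz : z ∈ K) :
    0 < mult f z ↔ f z = 0 := by
  have h := order_ne_top hK hf hcK hc hz
  unfold mult
  rw [Nat.pos_iff_ne_zero, ← (hf z hz).analyticOrderAt_ne_zero, ← Nat.cast_analyticOrderNatAt h]
  simp

/-- Jensen's inequality for multiplicities over a finite set in the smaller ball -/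
lemma jensen_mult {f : ℂ → ℂ} {c : ℂ} {r R M : ℝ} (hr : 0 < r) (hrR : r < R) (hM : 1 ≤ M)
    (hf : AnalyticOnNhd ℂ f (closedBall c R)) (hc : f c ≠ 0)
    (hb : ∀ z ∈ closedBall c R, ‖f z‖ ≤ M) (S : Finset ℂ) (hS : ∀ z ∈ S, z ∈ closedBall c r) :
    ∑ z ∈ S, (mult f z : ℝ) ≤ Real.log (M / ‖f c‖) / Real.log (R / r) := by
  have hR : 0 < R := hr.trans hrR
  have habsR : |R| = R := abs_of_pos hR
  have habsr : |r| = r := abs_of_pos hr
  have hK : IsPreconnected (closedBall c r) := (convex_closedBall c r).isPreconnected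
  have hfr : AnalyticOnNhd ℂ f (closedBall c r) := hf.mono (closedBall_subset_closedBall hrR.le)
  have hcr : c ∈ closedBall c r := mem_closedBall_self hr.le
  have key := AnalyticOnNhd.sum_divisor_le (c := c) (r := r) (R := R) (M := M) (f := f)
    (by rw [habsr]; exact hr) (by rw [habsr, habsR]; exact hrR) hM (by rw [habsR]; exact hf) hc
    (by
      rw [habsR]
      intro z hz
      exact hb z (sphere_subset_closedBall hz))
  refine le_trans ?_ key
  rw [habsr]
  have hfin : (Function.support (MeromorphicOn.divisor f (closedBall c r))).Finite :=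
    (MeromorphicOn.divisor f (closedBall c r)).finiteSupport (isCompact_closedBall c r)
  have hnn : ∀ u, 0 ≤ MeromorphicOn.divisor f (closedBall c r) u := fun u => by
    by_cases hu : u ∈ closedBall c r
    · rw [divisor_eq hK hfr hcr hc hu]; positivity
    · rw [Function.locallyFinsuppWithin.apply_eq_zero_of_notMem _ hu]
  have h1 : ∑ z ∈ S, (mult f z : ℤ) ≤ ∑ᶠ u, MeromorphicOn.divisor f (closedBall c r) u := by
    have h2 : ∑ z ∈ S, (mult f z : ℤ) = ∑ z ∈ S, MeromorphicOn.divisor f (closedBall c r) z :=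
      Finset.sum_congr rfl fun z hz => (divisor_eq hK hfr hcr hc (hS z hz)).symm
    rw [h2, finsum_eq_sum_of_support_subset (s := hfin.toFinset ∪ S) _ (by
      intro x hx; simp only [Finset.coe_union, Set.Finite.coe_toFinset, mem_union]; exact Or.inl hx)]
    exact Finset.sum_le_sum_of_subset_of_nonneg Finset.subset_union_right fun u _ _ => hnn u
  exact_mod_cast h1

/-- product over a multiset of roots -/
noncomputable def Pf (s : Multiset ℂ) (z : ℂ) : ℂ := (s.map (fun ρ => z - ρ)).prod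

lemma Pf_zero (z : ℂ) : Pf 0 z = 1 := by simp [Pf]

lemma Pf_cons (ρ : ℂ) (s : Multiset ℂ) (z : ℂ) : Pf (ρ ::ₘ s) z = (z - ρ) * Pf s z := by
  simp [Pf]

lemma Pf_diff (s : Multiset ℂ) : Differentiable ℂ (Pf s) := by
  induction s using Multiset.induction_on with
  | empty => 
    have : Pf 0 = fun _ => (1 : ℂ) := funext Pf_zero
    rw [this]; exact differentiable_const _
  | cons ρ s ih =>
    have : Pf (ρ ::ₘ s) = fun z => (z - ρ) * Pf s z := funext (Pf_cons ρ s)
    rw [this]
    exact (differentiable_id.sub_const ρ).mul ih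

lemma Pf_ne_zero {s : Multiset ℂ} {z : ℂ} (h : ∀ ρ ∈ s, z ≠ ρ) : Pf s z ≠ 0 := by
  induction s using Multiset.induction_on with
  | empty => rw [Pf_zero]; exact one_ne_zero
  | cons ρ s ih =>
    rw [Pf_cons]
    exact mul_ne_zero (sub_ne_zero.2 (h ρ (Multiset.mem_cons_self ρ s)))
      (ih fun ρ' h' => h ρ' (Multiset.mem_cons_of_mem h'))

lemma analytic_dslope {f : ℂ → ℂ} {K : Set ℂ} (hf : AnalyticOnNhd ℂ f K) {ρ : ℂ}
    (hρ : AnalyticAt ℂ f ρ) : AnalyticOnNhd ℂ (dslope f ρ) K := by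
  intro z hz
  by_cases h : z = ρ
  · subst h
    obtain ⟨U, hU, hUd⟩ := hρ.eventually_analyticAt.exists_mem
    have hd : DifferentiableOn ℂ f U := fun w hw => (hUd w hw).differentiableAt.differentiableWithinAt
    exact ((Complex.differentiableOn_dslope hU).2 hd).analyticAt hU
  · have h1 : dslope f ρ =ᶠ[𝓝 z] fun w => (w - ρ)⁻¹ * (f w - f ρ) := by
      filter_upwards [isOpen_ne.mem_nhds h] with w hw
      rw [dslope_of_ne _ hw, slope_def_field, div_eq_inv_mul]
    refine AnalyticAt.congr ?_ h1.symm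
    exact ((analyticAt_id.sub analyticAt_const).inv (sub_ne_zero.2 h)).mul
      ((hf z hz).sub analyticAt_const)

lemma count_le_mult {f g : ℂ → ℂ} {s : Multiset ℂ} {ρ : ℂ} (hf : AnalyticAt ℂ f ρ)
    (hne : analyticOrderAt f ρ ≠ ⊤) (hg : AnalyticAt ℂ g ρ) (h : ∀ z, f z = Pf s z * g z) :
    s.count ρ ≤ mult f ρ := by
  have h1 : s = Multiset.replicate (s.count ρ) ρ + s.filter (fun x => ¬ (ρ = x)) := by
    rw [← Multiset.filter_eq]
    exact (Multiset.filter_add_not _ s).symm
  have h2 : ∀ z, Pf s z = (z - ρ) ^ (s.count ρ) * Pf (s.filter (fun x => ¬ (ρ = x))) z := by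
    intro z
    conv_lhs => rw [h1]
    unfold Pf
    rw [Multiset.map_add, Multiset.prod_add, Multiset.map_replicate, Multiset.prod_replicate]
  have h3 : (s.count ρ : ℕ∞) ≤ analyticOrderAt f ρ := by
    rw [natCast_le_analyticOrderAt hf]
    refine ⟨fun z => Pf (s.filter (fun x => ¬ (ρ = x))) z * g z, ?_, ?_⟩
    · exact ((Pf_diff _).analyticAt ρ).mul hg
    · filter_upwards with z
      rw [h z, h2 z, smul_eq_mul, mul_assoc]
  unfold mult
  rw [← Nat.cast_analyticOrderNatAt hne] at h3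
  exact_mod_cast h3

/-- extraction of all zeros in the closed ball of radius `r` -/
lemma extract {f : ℂ → ℂ} {c : ℂ} {r R M : ℝ} (hr : 0 < r) (hrR : r < R) (hM : 1 ≤ M)
    (hf : AnalyticOnNhd ℂ f (closedBall c R)) (hc : f c ≠ 0)
    (hb : ∀ z ∈ closedBall c R, ‖f z‖ ≤ M) :
    ∃ (s : Multiset ℂ) (g : ℂ → ℂ), (∀ ρ ∈ s, ρ ∈ closedBall c r ∧ f ρ = 0) ∧
      AnalyticOnNhd ℂ g (closedBall c R) ∧ (∀ z, f z = Pf s z * g z) ∧
      (∀ z ∈ closedBall c r, g z ≠ 0) ∧
      (Multiset.card s : ℝ) ≤ Real.log (M / ‖f c‖) / Real.log (R / r) := by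
  classical
  have hR : 0 < R := hr.trans hrR
  have hK : IsPreconnected (closedBall c R) := (convex_closedBall c R).isPreconnected
  have hcR : c ∈ closedBall c R := mem_closedBall_self hR.le
  have hsub : closedBall c r ⊆ closedBall c R := closedBall_subset_closedBall hrR.le
  -- the predicate
  let Q : ℕ → Prop := fun n => ∃ (s : Multiset ℂ) (g : ℂ → ℂ), Multiset.card s = n ∧
    (∀ ρ ∈ s, ρ ∈ closedBall c r) ∧ AnalyticOnNhd ℂ g (closedBall c R) ∧ (∀ z, f z = Pf s z * g z)
  have hcard : ∀ (s : Multiset ℂ) (g : ℂ → ℂ), (∀ ρ ∈ s, ρ ∈ closedBall c r) →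
      AnalyticOnNhd ℂ g (closedBall c R) → (∀ z, f z = Pf s z * g z) →
      (Multiset.card s : ℝ) ≤ Real.log (M / ‖f c‖) / Real.log (R / r) := by
    intro s g hs hg hfg
    refine le_trans ?_ (jensen_mult hr hrR hM hf hc hb s.toFinset
      fun z hz => hs z (Multiset.mem_toFinset.1 hz))
    have h1 : Multiset.card s = ∑ z ∈ s.toFinset, s.count z := (Multiset.toFinset_sum_count_eq s).symm
    rw [h1]
    push_cast
    refine Finset.sum_le_sum fun z hz => ?_
    have hz' := hsub (hs z (Multiset.mem_toFinset.1 hz))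
    exact_mod_cast count_le_mult (hf z hz') (order_ne_top hK hf hcR hc hz') (hg z hz') hfg
  have hQ0 : Q 0 := ⟨0, f, by simp, by simp, hf, fun z => by rw [Pf_zero, one_mul]⟩
  by_contra hcon
  have hstep : ∀ n, Q n → Q (n + 1) := by
    rintro n ⟨s, g, hn, hs, hg, hfg⟩
    by_cases hz : ∀ z ∈ closedBall c r, g z ≠ 0
    · exfalso
      refine hcon ⟨s, g, fun ρ hρ => ⟨hs ρ hρ, ?_⟩, hg, hfg, hz, hcard s g hs hg hfg⟩
      rw [hfg ρ]
      have : Pf s ρ = 0 := by
        obtain ⟨t, rfl⟩ := Multiset.exists_cons_of_mem hρ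
        rw [Pf_cons, sub_self, zero_mul]
      rw [this, zero_mul]
    · push Not at hz
      obtain ⟨ρ, hρ, hgρ⟩ := hz
      refine ⟨ρ ::ₘ s, dslope g ρ, by rw [Multiset.card_cons, hn], ?_,
        analytic_dslope hg (hg ρ (hsub hρ)), ?_⟩
      · intro x hx
        rw [Multiset.mem_cons] at hx
        rcases hx with rfl | hx
        · exact hρ
        · exact hs x hx
      · intro z
        have h1 := sub_smul_dslope g ρ z
        rw [hgρ, sub_zero, smul_eq_mul] at h1
        rw [hfg z, Pf_cons, ← h1]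
        ring
  have hall : ∀ n, Q n := fun n => Nat.rec hQ0 hstep n
  obtain ⟨n, hn⟩ := exists_nat_gt (Real.log (M / ‖f c‖) / Real.log (R / r))
  obtain ⟨s, g, h1, h2, h3, h4⟩ := hall n
  have := hcard s g h2 h3 h4
  rw [h1] at this
  linarith

/-- multiplicity in the multiset is the order of vanishing -/
lemma count_eq_mult {f g : ℂ → ℂ} {s : Multiset ℂ} {ρ : ℂ} (hf : AnalyticAt ℂ f ρ)
    (hg : AnalyticAt ℂ g ρ) (hg0 : g ρ ≠ 0) (h : ∀ z, f z = Pf s z * g z) :
    mult f ρ = s.count ρ := by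
  have h1 : s = Multiset.replicate (s.count ρ) ρ + s.filter (fun x => ¬ (ρ = x)) := by
    rw [← Multiset.filter_eq]
    exact (Multiset.filter_add_not _ s).symm
  have h2 : ∀ z, Pf s z = (z - ρ) ^ (s.count ρ) * Pf (s.filter (fun x => ¬ (ρ = x))) z := by
    intro z
    conv_lhs => rw [h1]
    unfold Pf
    rw [Multiset.map_add, Multiset.prod_add, Multiset.map_replicate, Multiset.prod_replicate]
  have h3 : analyticOrderAt f ρ = (s.count ρ : ℕ∞) := by
    rw [hf.analyticOrderAt_eq_natCast]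
    refine ⟨fun z => Pf (s.filter (fun x => ¬ (ρ = x))) z * g z, ?_, ?_, ?_⟩
    · exact ((Pf_diff _).analyticAt ρ).mul hg
    · refine mul_ne_zero (Pf_ne_zero fun x hx he => ?_) hg0
      rw [Multiset.mem_filter] at hx
      exact hx.2 he
    · filter_upwards with z
      rw [h z, h2 z, smul_eq_mul, mul_assoc]
  unfold mult analyticOrderNatAt
  rw [h3]
  simp

/-- logarithmic derivative of the product -/
lemma logDeriv_Pf {s : Multiset ℂ} {z : ℂ} (h : ∀ ρ ∈ s, z ≠ ρ) :
    logDeriv (Pf s) z = ∑ ρ ∈ s.toFinset, (s.count ρ : ℂ) / (z - ρ) := by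
  have key : logDeriv (Pf s) z = (s.map (fun ρ => 1 / (z - ρ))).sum := by
    induction s using Multiset.induction_on with
    | empty =>
      have : Pf 0 = fun _ => (1 : ℂ) := funext Pf_zero
      rw [this]
      simp [logDeriv]
    | cons ρ s ih =>
      have : Pf (ρ ::ₘ s) = fun z => (z - ρ) * Pf s z := funext (Pf_cons ρ s)
      have hz : z - ρ ≠ 0 := sub_ne_zero.2 (h ρ (Multiset.mem_cons_self ρ s))
      have hP : Pf s z ≠ 0 := Pf_ne_zero fun ρ' h' => h ρ' (Multiset.mem_cons_of_mem h')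
      have e1 : logDeriv (fun z => (z - ρ) * Pf s z) z =
          logDeriv (fun z => z - ρ) z + logDeriv (Pf s) z :=
        logDeriv_mul z hz hP (differentiableAt_id.sub_const ρ) (Pf_diff s z)
      have e2 : logDeriv (fun z => z - ρ) z = 1 / (z - ρ) := by
        rw [logDeriv_apply]
        congr 1
        simp
      rw [this, e1, e2, ih fun ρ' h' => h ρ' (Multiset.mem_cons_of_mem h'),
        Multiset.map_cons, Multiset.sum_cons]
  rw [key, Finset.sum_multiset_map_count]
  refine Finset.sum_congr rfl fun ρ _ => ?_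
  rw [nsmul_eq_mul]
  ring


lemma Pf_norm_mono {s : Multiset ℂ} {z w : ℂ} (h : ∀ ρ ∈ s, ‖z - ρ‖ ≤ ‖w - ρ‖) :
    ‖Pf s z‖ ≤ ‖Pf s w‖ := by
  induction s using Multiset.induction_on with
  | empty => rw [Pf_zero, Pf_zero]
  | cons ρ s ih =>
    rw [Pf_cons, Pf_cons, norm_mul, norm_mul]
    exact mul_le_mul (h ρ (Multiset.mem_cons_self ρ s))
      (ih fun ρ' h' => h ρ' (Multiset.mem_cons_of_mem h')) (norm_nonneg _) (norm_nonneg _)

/-- Borel-Caratheodory for the logarithm of a zero free function -/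
lemma log_zero_free {g : ℂ → ℂ} {c : ℂ} {r r1 B : ℝ} (hr1 : 0 < r1)
    (h1r : r1 < r) (hB : 0 < B)
    (hg : AnalyticOnNhd ℂ g (closedBall c r)) (hg0 : ∀ z ∈ closedBall c r, g z ≠ 0)
    (hb : ∀ z ∈ closedBall c r, ‖g z‖ ≤ Real.exp B * ‖g c‖) :
    ∃ h : ℂ → ℂ, (∀ w ∈ ball c r, HasDerivAt h (logDeriv g w) w) ∧
      ∀ w ∈ closedBall c r1, ‖h w‖ ≤ 2 * B * r1 / (r - r1) := by
  have hr : 0 < r := hr1.trans h1r
  have hcr : c ∈ ball c r := mem_ball_self hr
  have hd : DifferentiableOn ℂ (logDeriv g) (ball c r) := by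
    intro w hw
    have hw' := ball_subset_closedBall hw
    have h1 : AnalyticAt ℂ (logDeriv g) w := (hg w hw').deriv.div (hg w hw') (hg0 w hw')
    exact h1.differentiableAt.differentiableWithinAt
  obtain ⟨h, hhc, hh⟩ := hd.isExactOn_ball.with_val_at c 0
  refine ⟨h, hh, ?_⟩
  -- g = g c * exp h
  have hconst : ∀ w ∈ ball c r, g w * cexp (-h w) = g c := by
    intro w hw
    have hderiv : ∀ x ∈ ball c r, HasDerivAt (fun y => g y * cexp (-h y)) 0 x := by
      intro x hx
      have hx' := ball_subset_closedBall hx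
      have e1 : HasDerivAt g (deriv g x) x := (hg x hx').differentiableAt.hasDerivAt
      have e2 : HasDerivAt (fun y => cexp (-h y)) (cexp (-h x) * (-(logDeriv g x))) x :=
        ((hh x hx).neg).cexp
      have e3 : HasDerivAt (fun y => g y * cexp (-h y))
          (deriv g x * cexp (-h x) + g x * (cexp (-h x) * (-(logDeriv g x)))) x := e1.mul e2
      have e4 : deriv g x * cexp (-h x) + g x * (cexp (-h x) * (-(logDeriv g x))) = 0 := by
        have := hg0 x hx'
        rw [logDeriv_apply]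
        field_simp
        ring
      rwa [e4] at e3
    have hcv : Convex ℝ (ball c r) := convex_ball c r
    have := hcv.is_const_of_fderivWithin_eq_zero (𝕜 := ℂ) (f := fun y => g y * cexp (-h y))
      (fun x hx => (hderiv x hx).differentiableAt.differentiableWithinAt)
      (fun x hx => by
        have h5 := (hderiv x hx).hasFDerivAt.hasFDerivWithinAt (s := ball c r)
        rw [h5.fderivWithin (isOpen_ball.uniqueDiffWithinAt hx)]
        ext; simp) hw hcr
    simp only [hhc, neg_zero, Complex.exp_zero, mul_one] at this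
    exact this
  have hgc : 0 < ‖g c‖ := norm_pos_iff.2 (hg0 c (mem_closedBall_self hr.le))
  have hre : ∀ w ∈ ball c r, (h w).re ≤ B := by
    intro w hw
    have h1 := hconst w hw
    have h2 : ‖g w‖ * Real.exp (-(h w).re) = ‖g c‖ := by
      rw [← h1, norm_mul, Complex.norm_exp]
      simp
    have h3 := hb w (ball_subset_closedBall hw)
    have h4 : ‖g c‖ ≤ Real.exp B * ‖g c‖ * Real.exp (-(h w).re) := by
      calc ‖g c‖ = ‖g w‖ * Real.exp (-(h w).re) := h2.symm
        _ ≤ _ := mul_le_mul_of_nonneg_right h3 (Real.exp_pos _).le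
    have h5 : 1 ≤ Real.exp B * Real.exp (-(h w).re) := by
      by_contra hcon
      push Not at hcon
      nlinarith
    rw [← Real.exp_add, Real.one_le_exp_iff] at h5
    linarith
  -- bound on h
  intro w hw
  have hw1 : ‖w - c‖ ≤ r1 := by rwa [mem_closedBall, dist_eq_norm] at hw
  have hw2 : w - c ∈ ball (0 : ℂ) r := by rw [mem_ball_zero_iff]; linarith
  have hmap : ∀ x : ℂ, x ∈ ball (0 : ℂ) r → c + x ∈ ball c r := by
    intro x hx
    rw [mem_ball_zero_iff] at hx
    rw [mem_ball, dist_eq_norm, add_sub_cancel_left]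
    exact hx
  have hbc := Complex.borelCaratheodory_zero (f := fun x => h (c + x)) (M := B) (R := r)
    (z := w - c) hB
    (fun x hx => by
      have h1 := (hh (c + x) (hmap x hx)).differentiableAt
      have h2 : DifferentiableAt ℂ (fun y : ℂ => c + y) x := by fun_prop
      exact (DifferentiableAt.comp (g := h) (f := fun y : ℂ => c + y) x h1 h2).differentiableWithinAt)
    (fun x hx => hre (c + x) (hmap x hx)) hr hw2 (by simp [hhc])
  simp only [add_sub_cancel] at hbc
  refine hbc.trans ?_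
  have h6 : 0 < r - r1 := by linarith
  have h7 : r - r1 ≤ r - ‖w - c‖ := by linarith
  exact div_le_div₀ (by positivity) (by gcongr) h6 h7

/-- **S_LAND** -/
theorem land_proof : Pool.Agent.H487.GA.S_LAND := by
  refine ⟨768, by norm_num, ?_⟩
  intro f z0 R M hR hM hf hf0 hfb
  have hK : IsPreconnected (closedBall z0 R) := (convex_closedBall z0 R).isPreconnected
  have han : AnalyticOnNhd ℂ f (closedBall z0 R) := fun z _ => hf.analyticAt z
  obtain ⟨s, g, hs, hg, hfg, hg0, -⟩ := extract (c := z0) (r := R / 2) (R := R)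
    (M := max 1 (Real.exp M * ‖f z0‖)) (by linarith) (by linarith) (le_max_left _ _) han hf0
    (fun z hz => (hfb z (by rwa [mem_closedBall, dist_eq_norm] at hz)).trans (le_max_right _ _))
  have hset : {ρ : ℂ | f ρ = 0 ∧ ‖ρ - z0‖ ≤ R / 2} = (s.toFinset : Set ℂ) := by
    ext ρ
    simp only [Set.mem_setOf_eq, Finset.mem_coe, Multiset.mem_toFinset]
    constructor
    · rintro ⟨h1, h2⟩
      by_contra hc
      have h3 : ρ ∈ closedBall z0 (R / 2) := by rwa [mem_closedBall, dist_eq_norm]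
      have h4 : Pf s ρ ≠ 0 := Pf_ne_zero fun x hx he => hc (he ▸ hx)
      exact mul_ne_zero h4 (hg0 ρ h3) ((hfg ρ).symm.trans h1)
    · intro h1
      refine ⟨(hs ρ h1).2, ?_⟩
      have h2 := (hs ρ h1).1
      rwa [mem_closedBall, dist_eq_norm] at h2
  refine ⟨by rw [hset]; exact s.toFinset.finite_toSet, logDeriv g, ?_⟩
  -- bounds for g
  have hPc : Pf s z0 ≠ 0 := by
    intro h
    apply hf0
    rw [hfg z0, h, zero_mul]
  have hgsphere : ∀ w ∈ sphere z0 R, ‖g w‖ ≤ Real.exp M * ‖g z0‖ := by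
    intro w hw
    have hwR : ‖w - z0‖ = R := by rwa [mem_sphere, dist_eq_norm] at hw
    have h1 : ‖Pf s z0‖ ≤ ‖Pf s w‖ := Pf_norm_mono fun ρ hρ => by
      have h2 := (hs ρ hρ).1
      rw [mem_closedBall, dist_eq_norm] at h2
      have h3 : ‖w - z0‖ ≤ ‖w - ρ‖ + ‖ρ - z0‖ := by
        calc ‖w - z0‖ = ‖(w - ρ) + (ρ - z0)‖ := by congr 1; ring
          _ ≤ _ := norm_add_le _ _
      rw [norm_sub_rev z0 ρ]
      linarith
    have h4 : 0 < ‖Pf s z0‖ := norm_pos_iff.2 hPc
    have h5 := hfb w hwR.le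
    rw [hfg w, hfg z0, norm_mul, norm_mul] at h5
    have h6 : ‖Pf s z0‖ * ‖g w‖ ≤ ‖Pf s z0‖ * (Real.exp M * ‖g z0‖) := by
      calc ‖Pf s z0‖ * ‖g w‖ ≤ ‖Pf s w‖ * ‖g w‖ := mul_le_mul_of_nonneg_right h1 (norm_nonneg _)
        _ ≤ Real.exp M * (‖Pf s z0‖ * ‖g z0‖) := h5
        _ = _ := by ring
    exact le_of_mul_le_mul_left h6 h4
  have hgball : ∀ w ∈ closedBall z0 R, ‖g w‖ ≤ Real.exp M * ‖g z0‖ := by
    intro w hw
    refine Complex.norm_le_of_forall_mem_frontier_norm_le (U := ball z0 R) isBounded_ball ?_ ?_ ?_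
    · apply DifferentiableOn.diffContOnCl
      rw [closure_ball z0 hR.ne']
      exact fun x hx => (hg x hx).differentiableAt.differentiableWithinAt
    · intro x hx
      rw [frontier_ball z0 hR.ne'] at hx
      exact hgsphere x hx
    · rwa [closure_ball z0 hR.ne']
  obtain ⟨h, hh, hhb⟩ := log_zero_free (g := g) (c := z0) (r := R / 2) (r1 := 3 * R / 8)
    (by linarith) (by linarith) hM
    (hg.mono (closedBall_subset_closedBall (by linarith))) hg0
    (fun z hz => hgball z (closedBall_subset_closedBall (by linarith) hz))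
  have hhb' : ∀ w ∈ closedBall z0 (3 * R / 8), ‖h w‖ ≤ 6 * M := by
    intro w hw
    refine (hhb w hw).trans (le_of_eq ?_)
    field_simp
    ring
  intro z hz
  have hzb : z ∈ ball z0 (R / 2) := by
    rw [mem_ball, dist_eq_norm]
    linarith
  have hzc := ball_subset_closedBall hzb
  have hzR : z ∈ closedBall z0 R := closedBall_subset_closedBall (by linarith) hzc
  refine ⟨(hg z hzR).deriv.div (hg z hzR) (hg0 z hzc), ?_, ?_⟩
  · have e1 : deriv (logDeriv g) z = iteratedDeriv 2 h z := by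
      rw [iteratedDeriv_succ, iteratedDeriv_one]
      refine Filter.EventuallyEq.deriv_eq ?_
      filter_upwards [isOpen_ball.mem_nhds hzb] with w hw
      exact (hh w hw).deriv.symm
    have hsub : closedBall z (R / 8) ⊆ closedBall z0 (3 * R / 8) := by
      intro w hw
      rw [mem_closedBall, dist_eq_norm] at hw ⊢
      calc ‖w - z0‖ = ‖(w - z) + (z - z0)‖ := by congr 1; ring
        _ ≤ ‖w - z‖ + ‖z - z0‖ := norm_add_le _ _
        _ ≤ 3 * R / 8 := by linarith
    have hdc : DiffContOnCl ℂ h (ball z (R / 8)) := by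
      apply DifferentiableOn.diffContOnCl
      intro w hw
      rw [closure_ball _ (by positivity : R / 8 ≠ 0)] at hw
      have h1 := hsub hw
      have h2 : w ∈ ball z0 (R / 2) := closedBall_subset_ball (by linarith) h1
      exact (hh w h2).differentiableAt.differentiableWithinAt
    have hcau := Complex.norm_iteratedDeriv_le_of_forall_mem_sphere_norm_le (c := z) (R := R / 8)
      (C := 6 * M) (f := h) 2 (by positivity) hdc
      (fun w hw => hhb' w (hsub (sphere_subset_closedBall hw)))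
    rw [e1]
    refine hcau.trans (le_of_eq ?_)
    rw [Nat.factorial_two]
    push_cast
    field_simp
    ring
  · intro hfz
    have hne : ∀ ρ ∈ s, z ≠ ρ := fun ρ hρ he => hfz (he ▸ (hs ρ hρ).2)
    have hPz : Pf s z ≠ 0 := Pf_ne_zero hne
    have heq : deriv f z / f z = logDeriv (Pf s) z + logDeriv g z := by
      have h1 : f = fun w => Pf s w * g w := funext hfg
      rw [← logDeriv_apply]
      conv_lhs => rw [h1]
      exact logDeriv_mul z hPz (hg0 z hzc) (Pf_diff s z) (hg z hzR).differentiableAt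
    rw [heq, logDeriv_Pf hne, hset, finsum_mem_coe_finset]
    congr 1
    refine Finset.sum_congr rfl fun ρ hρ => ?_
    have hρs : ρ ∈ s := Multiset.mem_toFinset.1 hρ
    have h2 := (hs ρ hρs).1
    have h3 : ρ ∈ closedBall z0 R := closedBall_subset_closedBall (by linarith) h2
    have h4 := count_eq_mult (hf.analyticAt ρ) (hg ρ h3) (hg0 ρ h2) hfg
    unfold mult at h4
    rw [h4]
    ring

end Pool.Agent.H721.GA
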